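import Pool.Agent.T2H68.QH.Grp

/-!
# The gamma functions of the group of order 32
-/

set_option autoImplicit false

namespace Pool.Agent.T2H68.QH

open Equiv Gp

theorem pow4_of_iso {N : Subgroup (Perm Gp)} (h : Nonempty (N ≃* Gp)) :
    ∀ σ ∈ N, σ * σ * (σ * σ) = 1 := by
  obtain ⟨e⟩ := h
  intro σ hσ
  have h1 : (⟨σ, hσ⟩ : N) * ⟨σ, hσ⟩ * (⟨σ, hσ⟩ * ⟨σ, hσ⟩) = 1 := by
    apply e.injective
    rw [map_mul, map_mul, map_one]
    exact pow4 _
  simpa using congrArg Subtype.val h1

/-- The automorphisms that occur in a member of `S(G) ∩ R(G)` map `z` into `z ⟨a⟩ Φ(G)`. -/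
theorem gamma_z {N : Subgroup (Perm Gp)} (hN : N ∈ SS Gp ∩ RR Gp) (d : Gp → Gp → Gp)
    (hσ : ∀ y, ∃ σ ∈ N, ∀ x, σ x = y * d y x)
    (hmul : ∀ y a b, d y (a * b) = d y a * d y b)
    (hbij : ∀ y, Function.Bijective (d y))
    (hcirc : ∀ y h x, d (y * d y h) x = d y (d h x))
    (hanti : ∀ x y v, d (x * y) v = d y (d x v)) (y : Gp) : p1 (d y z) = 0 := by
  by_contra hne
  have two : ∀ t : ZMod 2, t ≠ 0 → t = 1 := by decide
  have hy1 : p1 (d y z) = 1 := two _ hne
  -- additivity
  have hadd : ∀ x y, p1 (d (x * y) z) = p1 (d x z) + p1 (d y z) := by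
    intro x y
    rw [hanti, aut_p1 (d y) (hmul y) (hbij y), (aut_az (d x) (hmul x) (hbij x)).2, one_mul]
  -- choose an element with third coordinate one
  obtain ⟨y, hy, hy3⟩ : ∃ y, p1 (d y z) = 1 ∧ p3 y = 1 := by
    by_cases h3 : p3 y = 0
    · by_cases hz : p1 (d z z) = 0
      · refine ⟨z * y, by rw [hadd, hz, hy1, zero_add], ?_⟩
        rw [p3_mul, h3]; decide
      · exact ⟨z, two _ hz, by decide⟩
    · exact ⟨y, hy1, two _ h3⟩
  -- notation
  have hm := hmul y
  have hb := hbij y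
  set α := d y with hα
  -- the kernel
  have hinvK : ∀ h x, d (α h) (α x) = α (d h x) := by
    intro h x
    rw [hα, ← hanti, hcirc]
  have hcomp : ∀ x, d (y * α y) x = α (α x) := fun x => hcirc y y x
  have hsq : ∀ x, d (y * y) x = α (α x) := fun x => hanti y y x
  have hKmul : ∀ s t, (∀ x, d s x = x) → (∀ x, d t x = x) → ∀ x, d (s * t) x = x := by
    intro s t hs ht x
    rw [hanti, hs, ht]
  have hK1 : ∀ x, d 1 x = x := by
    intro x
    have h1 := hanti 1 1 x
    rw [mul_one] at h1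
    exact ((hbij 1).1 h1).symm
  have hKinv : ∀ s, (∀ x, d s x = x) → ∀ x, d s⁻¹ x = x := by
    intro s hs x
    have h1 := hanti s s⁻¹ x
    rw [mul_inv_cancel, hK1, hs] at h1
    exact h1.symm
  have hKα : ∀ s, (∀ x, d s x = x) → ∀ x, d (α s) x = x := by
    intro s hs x
    obtain ⟨x, rfl⟩ := hb.2 x
    rw [hinvK, hs]
  -- t'
  set t := y⁻¹ * α y with ht
  have hyt : α y = y * t := by rw [ht]; group
  have htK : ∀ x, d t x = x := by
    intro x
    obtain ⟨x, rfl⟩ := hb.2 x
    have h1 : d (α y) (α x) = α (α x) := hinvK y x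
    rw [hyt, hanti] at h1
    -- d t (d y (α x)) = α (α x)
    obtain ⟨x', hx'⟩ := hb.2 x
    have h2 := hinvK y x'
    rw [hyt, hanti] at h2
    -- h2 : d t (d y (α x')) = α (d y x')
    have h3 : d t (α (α x')) = α (α x') := h2
    rw [hx'] at h3
    exact h3
  have pinv1 : p1 t + p1 y = p1 y + 1 := by
    have h1 := congrArg p1 hyt
    rw [p1_mul, aut_p1 α hm hb, hy3, hy, one_mul] at h1
    rw [h1]; ring
  have ht1 : p1 t = 1 := by
    have := pinv1
    rw [add_comm] at this
    exact add_left_cancel this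
  have ht3 : p3 t = 0 := by
    have h1 := congrArg p3 hyt
    rw [p3_mul, aut_p3 α hm hb] at h1
    exact (add_eq_left.1 h1.symm)
  have htt : t * t = w1 := sq_t t ht1 ht3
  have hw1K : ∀ x, d w1 x = x := by rw [← htt]; exact hKmul t t htK htK
  -- φ
  set φ := t⁻¹ * α t with hφ
  have hat : α t = t * φ := by rw [hφ]; group
  have hφK : ∀ x, d φ x = x := hKmul _ _ (hKinv _ htK) (hKα _ htK)
  have hφ1 : p1 φ = 0 := by
    have h1 := congrArg p1 hat
    rw [p1_mul, aut_p1 α hm hb, ht3, zero_mul, add_zero] at h1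
    exact (add_eq_left.1 h1.symm)
  have hφ2 : p2 φ = 0 := by
    have h1 := congrArg p2 hat
    rw [p2_mul, aut_p2 α hm hb, ht3, zero_mul, add_zero] at h1
    exact (add_eq_left.1 h1.symm)
  have hφ3 : p3 φ = 0 := by
    have h1 := congrArg p3 hat
    rw [p3_mul, aut_p3 α hm hb] at h1
    exact (add_eq_left.1 h1.symm)
  have hφm := mem_phi φ hφ1 hφ2 hφ3
  have hw1 := aut_w1 α hm hb
  -- the element t1
  set s := y * α y with hs
  have hs1 : p1 s = 1 := by
    rw [hs, p1_mul, hyt, p1_mul, ht1]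
    have : ∀ b : ZMod 2, b + (b + 1) = 1 := by decide
    exact this _
  have hs3 : p3 s = 0 := by
    rw [hs, p3_mul, hyt, p3_mul, ht3]
    have : ∀ b : ZMod 2, b + (b + 0) = 0 := by decide
    exact this _
  have hss : s * s = w1 := sq_t s hs1 hs3
  -- exponent four
  have hexp : s * α (α s) = 1 := by
    obtain ⟨σ, hσN, hσx⟩ := hσ y
    have h4 := pow4_of_iso hN.1.2.1 σ hσN
    have h5 := congrArg (fun τ : Perm Gp => τ 1) h4
    simp only [Perm.mul_apply, Perm.one_apply] at h5
    have h6 : ∀ x, σ (σ x) = s * α (α x) := by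
      intro x
      rw [hσx, hσx, ← hα, hm, hs, mul_assoc]
    have h7 : α (α 1) = 1 := by rw [aut_one α hm, aut_one α hm]
    rw [h6, h6, h7, mul_one] at h5
    exact h5
  -- it is enough that `α²` fixes `s`
  suffices hfix : α (α s) = s by
    rw [hfix, hss] at hexp
    exact absurd hexp (by decide)
  have hαα : ∀ x, p1 x = 0 → p2 x = 0 → p3 x = 0 → α (α x) = x := by
    intro x h1 h2 h3
    have hw2 : α (α w2) = w2 := by
      rcases aut_w2 α hm hb with h | h
      · rw [h, h]
      · rw [h, hm, hw1, h]; decide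
    rcases mem_phi x h1 h2 h3 with rfl | rfl | rfl | rfl
    · rw [aut_one α hm, aut_one α hm]
    · rw [hw1, hw1]
    · exact hw2
    · rw [hm, hm, hw1, hw1, hw2]
  by_cases hcase : φ = 1 ∨ φ = w1
  · -- `α² t = t`
    have hαφ : α φ = φ := by
      rcases hcase with h | h
      · rw [h, aut_one α hm]
      · rw [h, hw1]
    have hφφ : φ * φ = 1 := by
      rcases hcase with h | h
      · rw [h, mul_one]
      · rw [h]; decide
    have h1 : α (α t) = t := by
      rw [hat, hm, hat, hαφ, mul_assoc, hφφ, mul_one]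
    have h2 : s = y * y * t := by rw [hs, hyt, mul_assoc]
    have h3 : α (α (y * y)) = y * y := by
      have e : ∀ b : ZMod 2, b + b = 0 := by decide
      apply hαα
      · rw [p1_mul, e]
      · rw [p2_mul, e]
      · rw [p3_mul, e]
    rw [h2, hm, hm, h1, h3]
  · -- the Frattini subgroup is in the kernel
    have hw2K : ∀ x, d w2 x = x := by
      rcases hφm with h | h | h | h
      · exact absurd (Or.inl h) hcase
      · exact absurd (Or.inr h) hcase
      · rw [← h]; exact hφK
      · have e : w2 = w1 * φ := by rw [h]; decide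
        rw [e]; exact hKmul _ _ hw1K hφK
    have hyyK : ∀ x, d (y * y) x = x := by
      rcases sq_mem y with h | h | h | h
      · rw [h]; exact hK1
      · rw [h]; exact hw1K
      · rw [h]; exact hw2K
      · rw [h]; exact hKmul _ _ hw1K hw2K
    rw [← hsq, hyyK]

end Pool.Agent.T2H68.QH
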