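import Pool.Agent.T2H68.QH.Gen

/-!
# Gamma functions of the members of `S(G) ∩ R(G)`
-/

set_option autoImplicit false

namespace Pool.Agent.T2H68.QH

open Equiv

variable {G : Type} [Group G]

/-- The gamma function of a member of `S(G) ∩ R(G)`. -/
theorem exists_gamma {N : Subgroup (Perm G)} (hN : N ∈ SS G ∩ RR G) :
    ∃ d : G → G → G, (∀ σ ∈ N, ∀ x, σ x = σ 1 * d (σ 1) x) ∧
      (∀ y, ∃ σ ∈ N, ∀ x, σ x = y * d y x) ∧
      (∀ y a b, d y (a * b) = d y a * d y b) ∧
      (∀ y, Function.Bijective (d y)) ∧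
      (∀ y h x, d (y * d y h) x = d y (d h x)) ∧
      (∀ x y v, d (x * y) v = d y (d x v)) := by
  obtain ⟨⟨hreg, hiso, hS⟩, ⟨_, _, hR⟩⟩ := hN
  choose n hn hu using fun y : G => hreg 1 y
  simp only at hn hu
  have hu' : ∀ σ ∈ N, ∀ y, σ 1 = y → σ = n y := fun σ hσ y h => hu y σ ⟨hσ, h⟩
  let d : G → G → G := fun y x => y⁻¹ * n y x
  have hnd : ∀ y x, n y x = y * d y x := fun y x => by simp [d]
  have hmul : ∀ y a b, d y (a * b) = d y a * d y b := by
    intro y a b
    have h1 : n y ∈ Hol G := hS (hn y).1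
    have h2 := (Subgroup.mem_normalizer_iff.1 h1 (lt a)).1 (lt_mem a)
    obtain ⟨g, hg⟩ := mem_lam.1 h2
    have h3 : ∀ w, n y (a * w) = g * n y w := by
      intro w
      have := hg (n y w)
      simpa only [Perm.mul_apply, inv_app, lt_apply] using this
    have h4 := h3 1
    rw [mul_one, (hn y).2] at h4
    have h5 : g = n y a * y⁻¹ := by rw [h4]; group
    simp only [d, h3 b, h5]
    group
  have hone : ∀ y, d y 1 = 1 := fun y => by simp [d, (hn y).2]
  have hcirc : ∀ y h x, d (y * d y h) x = d y (d h x) := by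
    intro y h x
    have h1 : n y * n h = n (y * d y h) := by
      apply hu' _ (N.mul_mem (hn y).1 (hn h).1)
      rw [Perm.mul_apply, (hn h).2, hnd]
    have h2 : n (y * d y h) x = y * (d y h * d y (d h x)) := by
      rw [← h1, Perm.mul_apply, hnd h x, hnd y, hmul]
    rw [hnd] at h2
    rw [mul_assoc] at h2
    exact mul_left_cancel (mul_left_cancel h2)
  have hcj : ∀ x y v, d (x * y * d y x⁻¹) v = d y v := by
    intro x y v
    have h1 : lt x * n y * (lt x)⁻¹ = n (x * y * d y x⁻¹) := by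
      apply hu' _ ((Subgroup.mem_normalizer_iff.1 (hR (lt_mem x)) _).1 (hn y).1)
      simp only [Perm.mul_apply, lt_inv_apply, lt_apply, hnd, mul_one, mul_assoc]
    have h2 : n (x * y * d y x⁻¹) v = x * (y * (d y x⁻¹ * d y v)) := by
      rw [← h1]
      simp only [Perm.mul_apply, lt_inv_apply, lt_apply, hnd, hmul]
    rw [hnd] at h2
    have h3 : x * (y * (d y x⁻¹ * d y v)) = x * y * d y x⁻¹ * d y v := by group
    rw [h3] at h2
    exact mul_left_cancel h2
  refine ⟨d, ?_, ?_, hmul, ?_, hcirc, ?_⟩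
  · intro σ hσ x
    have := hu' σ hσ (σ 1) rfl
    conv_lhs => rw [this]
    exact hnd _ _
  · intro y
    exact ⟨n y, (hn y).1, hnd y⟩
  · intro y
    exact (Group.mulLeft_bijective y⁻¹).comp (n y).bijective
  · intro x y v
    have h1 : x * y = (x * y * d y x⁻¹) * d (x * y * d y x⁻¹) x := by
      rw [hcj, mul_assoc (x * y), ← hmul, inv_mul_cancel, hone, mul_one]
    conv_lhs => rw [h1]
    rw [hcirc, hcj]

theorem mem_cj_lam {β : Perm G} {γ : G → G → G}
    (h1 : ∀ g h, β (g * h) = β g * γ (β g) (β h)) (σ : Perm G) :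
    σ ∈ cj β (lam G) ↔ ∃ x, ∀ v, σ v = x * γ x v := by
  rw [mem_cj, mem_lam]
  constructor
  · rintro ⟨g, hg⟩
    refine ⟨β g, fun v => ?_⟩
    have := hg (β⁻¹ v)
    simp only [Perm.mul_apply, app_inv] at this
    rw [Perm.inv_eq_iff_eq, h1, app_inv] at this
    exact this
  · rintro ⟨x, hx⟩
    refine ⟨β⁻¹ x, fun v => ?_⟩
    simp only [Perm.mul_apply]
    rw [Perm.inv_eq_iff_eq, h1, app_inv, hx]

theorem SR_of (β : Perm G) (γ : G → G → G)
    (h1 : ∀ g h, β (g * h) = β g * γ (β g) (β h))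
    (h2 : ∀ x v w, γ x (v * w) = γ x v * γ x w)
    (h3 : ∀ x h v, γ (h * x * (γ x h)⁻¹) v = γ x v) :
    cj β (lam G) ∈ SS G ∩ RR G := by
  have hone : ∀ x, γ x 1 = 1 := fun x => by
    have := h2 x 1 1
    rw [mul_one] at this
    exact (mul_eq_left.1 this.symm)
  have hinv : ∀ x h, γ x h⁻¹ = (γ x h)⁻¹ := fun x h => by
    rw [eq_inv_iff_mul_eq_one, ← h2, inv_mul_cancel, hone]
  refine ⟨⟨isRegular_cj _ lam_regular, nonempty_cj _ lam_iso, ?_⟩,
    ⟨isRegular_cj _ lam_regular, nonempty_cj _ lam_iso, ?_⟩⟩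
  · apply le_norm
    intro n hn l hl
    obtain ⟨x, hx⟩ := (mem_cj_lam h1 n).1 hn
    obtain ⟨a, ha⟩ := mem_lam.1 hl
    rw [mem_lam]
    refine ⟨x * γ x a * x⁻¹, fun v => ?_⟩
    simp only [Perm.mul_apply]
    have hv : v = x * γ x (n⁻¹ v) := by rw [← hx, app_inv]
    rw [ha, hx, h2]
    conv_rhs => rw [hv]
    group
  · apply le_norm
    intro l hl n hn
    obtain ⟨x, hx⟩ := (mem_cj_lam h1 n).1 hn
    obtain ⟨a, ha⟩ := mem_lam.1 hl
    rw [mem_cj_lam h1]
    refine ⟨a * x * (γ x a)⁻¹, fun v => ?_⟩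
    simp only [Perm.mul_apply]
    have hl' : l = lt a := by ext v; rw [ha]; rfl
    rw [h3, ha, hx, hl', lt_inv_apply, h2, hinv]
    group

end Pool.Agent.T2H68.QH
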