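import Mathlib

/-!
# Regular subgroups, holomorph and quasi-holomorph: general part
-/

set_option autoImplicit false

namespace Pool.Agent.T2H68.QH

open Equiv

variable {G : Type} [Group G]

/-- The left regular representation `λ(G)` of a group `G`, a subgroup of `Perm(G)`. -/
def lam (G : Type) [Group G] : Subgroup (Perm G) := (MulAction.toPermHom G G).range

/-- Regular subgroups of `Perm(G)`. -/
def IsRegular {G : Type} (N : Subgroup (Perm G)) : Prop :=
  ∀ x y : G, ∃! σ : Perm G, σ ∈ N ∧ σ x = y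

/-- The holomorph `Hol(G) = Norm_B(λ(G))`. -/
def Hol (G : Type) [Group G] : Subgroup (Perm G) := Subgroup.normalizer (lam G : Set (Perm G))

/-- The set `S(G)`. -/
def SS (G : Type) [Group G] : Set (Subgroup (Perm G)) :=
  {N | IsRegular N ∧ Nonempty (N ≃* G) ∧ N ≤ Hol G}

/-- The set `R(G)`. -/
def RR (G : Type) [Group G] : Set (Subgroup (Perm G)) :=
  {N | IsRegular N ∧ Nonempty (N ≃* G) ∧ lam G ≤ Subgroup.normalizer (N : Set (Perm G))}

/-- The set `Q(G)`. -/
def QQ (G : Type) [Group G] : Set (Subgroup (Perm G)) :=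
  {M | M ∈ SS G ∩ RR G ∧ ∀ N ∈ SS G ∩ RR G, N ≤ Subgroup.normalizer (M : Set (Perm G))}

/-- The conjugate `β H β⁻¹`. -/
def cj {B : Type} [Group B] (β : B) (H : Subgroup B) : Subgroup B :=
  H.map (MulAut.conj β).toMonoidHom

theorem mem_cj {B : Type} [Group B] {β : B} {H : Subgroup B} {x : B} :
    x ∈ cj β H ↔ β⁻¹ * x * β ∈ H := by
  unfold cj
  constructor
  · rintro ⟨y, hy, rfl⟩
    have : β⁻¹ * ((MulAut.conj β).toMonoidHom y) * β = y := by
      simp [MulAut.conj_apply]; group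
    rw [this]; exact hy
  · intro h
    exact ⟨_, h, by simp [MulAut.conj_apply]; group⟩

theorem cj_mul {B : Type} [Group B] (α β : B) (H : Subgroup B) :
    cj (α * β) H = cj α (cj β H) := by
  ext x
  simp only [mem_cj, mul_inv_rev]
  constructor <;> intro h <;> convert h using 1 <;> group

theorem cj_one {B : Type} [Group B] (H : Subgroup B) : cj 1 H = H := by
  ext x; simp [mem_cj]

theorem cj_inv_cj {B : Type} [Group B] (β : B) (H : Subgroup B) : cj β⁻¹ (cj β H) = H := by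
  rw [← cj_mul, inv_mul_cancel, cj_one]

theorem cj_cj_inv {B : Type} [Group B] (β : B) (H : Subgroup B) : cj β (cj β⁻¹ H) = H := by
  rw [← cj_mul, mul_inv_cancel, cj_one]

theorem mem_norm {B : Type} [Group B] {H : Subgroup B} {g : B} :
    g ∈ Subgroup.normalizer (H : Set B) ↔ cj g H = H := by
  rw [Subgroup.mem_normalizer_iff]
  constructor
  · intro h
    ext x
    rw [mem_cj]
    have := h (g⁻¹ * x * g)
    have e : g * (g⁻¹ * x * g) * g⁻¹ = x := by group
    rw [e] at this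
    exact this
  · intro h x
    conv_rhs => rw [← h, mem_cj]
    have e : g⁻¹ * (g * x * g⁻¹) * g = x := by group
    rw [e]

/-- It is enough to check one inclusion for all elements of a subgroup. -/
theorem le_norm {B : Type} [Group B] {N H : Subgroup B}
    (h : ∀ n ∈ N, ∀ x ∈ H, n * x * n⁻¹ ∈ H) : N ≤ Subgroup.normalizer (H : Set B) := by
  intro n hn
  rw [Subgroup.mem_normalizer_iff]
  intro x
  constructor
  · intro hx; exact h n hn x hx
  · intro hx
    have := h n⁻¹ (N.inv_mem hn) _ hx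
    have e : n⁻¹ * (n * x * n⁻¹) * n⁻¹⁻¹ = x := by group
    rw [e] at this
    exact this

theorem norm_cj {B : Type} [Group B] (b : B) (N M : Subgroup B) :
    cj b N ≤ Subgroup.normalizer (cj b M : Set B) ↔ N ≤ Subgroup.normalizer (M : Set B) := by
  constructor
  · intro h n hn
    have h1 : b * n * b⁻¹ ∈ cj b N := by
      rw [mem_cj]
      have e : b⁻¹ * (b * n * b⁻¹) * b = n := by group
      rw [e]; exact hn
    have h2 := h h1
    rw [mem_norm] at h2 ⊢
    rw [← cj_mul] at h2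
    have h3 := congrArg (cj b⁻¹) h2
    rw [← cj_mul, cj_inv_cj] at h3
    have e : b⁻¹ * (b * n * b⁻¹ * b) = n := by group
    rw [e] at h3
    exact h3
  · intro h n hn
    rw [mem_cj] at hn
    have h2 := h hn
    rw [mem_norm] at h2 ⊢
    have h3 := congrArg (cj b) h2
    rw [← cj_mul] at h3
    rw [← cj_mul]
    have e : b * (b⁻¹ * n * b) = n * b := by group
    rw [e] at h3
    exact h3

theorem app_inv {G : Type} (b : Perm G) (x : G) : b (b⁻¹ x) = x := by
  rw [← Perm.mul_apply, mul_inv_cancel, Perm.one_apply]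

theorem inv_app {G : Type} (b : Perm G) (x : G) : b⁻¹ (b x) = x := by
  rw [← Perm.mul_apply, inv_mul_cancel, Perm.one_apply]

theorem isRegular_cj {G : Type} (b : Perm G) {N : Subgroup (Perm G)} (h : IsRegular N) :
    IsRegular (cj b N) := by
  intro x y
  obtain ⟨σ, ⟨h1, h2⟩, h3⟩ := h (b⁻¹ x) (b⁻¹ y)
  refine ⟨b * σ * b⁻¹, ⟨?_, ?_⟩, ?_⟩
  · rw [mem_cj]
    have e : b⁻¹ * (b * σ * b⁻¹) * b = σ := by group
    rw [e]; exact h1
  · simp only [Perm.mul_apply, h2, app_inv]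
  · rintro τ ⟨h4, h5⟩
    rw [mem_cj] at h4
    have := h3 (b⁻¹ * τ * b) ⟨h4, by simp only [Perm.mul_apply, app_inv, h5]⟩
    rw [← this]; group

theorem nonempty_cj {B : Type} [Group B] (b : B) {N : Subgroup B} (h : Nonempty (N ≃* G)) :
    Nonempty ((cj b N : Subgroup B) ≃* G) := by
  obtain ⟨e⟩ := h
  exact ⟨((MulAut.conj b).subgroupMap N).symm.trans e⟩

theorem mem_lam {σ : Perm G} : σ ∈ lam G ↔ ∃ g : G, ∀ x, σ x = g * x := by
  unfold lam
  rw [MonoidHom.mem_range]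
  constructor
  · rintro ⟨g, rfl⟩; exact ⟨g, fun x => rfl⟩
  · rintro ⟨g, h⟩; exact ⟨g, by ext x; rw [h]; rfl⟩

/-- left translation -/
def lt (g : G) : Perm G := MulAction.toPermHom G G g

@[simp] theorem lt_apply (g x : G) : lt g x = g * x := rfl

theorem lt_mem (g : G) : lt g ∈ lam G := mem_lam.2 ⟨g, fun _ => rfl⟩

@[simp] theorem lt_inv_apply (g x : G) : (lt g)⁻¹ x = g⁻¹ * x := by
  rw [Perm.inv_eq_iff_eq]; simp

theorem lam_regular : IsRegular (lam G) := by
  intro x y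
  refine ⟨lt (y * x⁻¹), ⟨lt_mem _, by simp⟩, ?_⟩
  rintro τ ⟨h1, h2⟩
  obtain ⟨g, hg⟩ := mem_lam.1 h1
  ext v
  rw [hg, ← h2, hg]
  simp

theorem lam_iso : Nonempty ((lam G : Subgroup (Perm G)) ≃* G) := by
  have hinj : Function.Injective (MulAction.toPermHom G G) := by
    intro a b h
    have := congrArg (fun σ : Perm G => σ 1) h
    simpa using this
  exact ⟨(MonoidHom.ofInjective hinj).symm⟩

theorem lam_mem_S : lam G ∈ SS G := ⟨lam_regular, lam_iso, Subgroup.le_normalizer⟩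

theorem lam_mem_R : lam G ∈ RR G := ⟨lam_regular, lam_iso, Subgroup.le_normalizer⟩

theorem lam_mem_Q : lam G ∈ QQ G := ⟨⟨lam_mem_S, lam_mem_R⟩, fun _ hN => hN.1.2.2⟩

theorem SR_cj {h : Perm G} (hh : cj h (lam G) = lam G) {N : Subgroup (Perm G)}
    (hN : N ∈ SS G ∩ RR G) : cj h N ∈ SS G ∩ RR G := by
  obtain ⟨⟨h1, h2, h3⟩, ⟨_, _, h4⟩⟩ := hN
  refine ⟨⟨isRegular_cj _ h1, nonempty_cj _ h2, ?_⟩, ⟨isRegular_cj _ h1, nonempty_cj _ h2, ?_⟩⟩
  · have := (norm_cj h _ _).2 h3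
    rw [hh] at this
    exact this
  · have := (norm_cj h _ _).2 h4
    rw [hh] at this
    exact this

theorem cj_inv_eq {h : Perm G} (hh : cj h (lam G) = lam G) : cj h⁻¹ (lam G) = lam G := by
  conv_lhs => rw [← hh]
  exact cj_inv_cj _ _

theorem Q_cj {h : Perm G} (hh : cj h (lam G) = lam G) {M : Subgroup (Perm G)}
    (hM : M ∈ QQ G) : cj h M ∈ QQ G := by
  refine ⟨SR_cj hh hM.1, fun N hN => ?_⟩
  have h1 := hM.2 _ (SR_cj (cj_inv_eq hh) hN)
  have h2 := (norm_cj h _ _).2 h1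
  rwa [cj_cj_inv] at h2

/-- the conjugate of `λ(G)` by the inverse -/
theorem SR_inv {b : Perm G} (h : cj b (lam G) ∈ SS G ∩ RR G) :
    cj b⁻¹ (lam G) ∈ SS G ∩ RR G := by
  obtain ⟨⟨h1, h2, h3⟩, ⟨_, _, h4⟩⟩ := h
  refine ⟨⟨isRegular_cj _ lam_regular, nonempty_cj _ lam_iso, ?_⟩,
    ⟨isRegular_cj _ lam_regular, nonempty_cj _ lam_iso, ?_⟩⟩
  · have := (norm_cj b⁻¹ _ _).2 h4
    rwa [cj_inv_cj] at this
  · have := (norm_cj b⁻¹ _ _).2 h3
    rwa [cj_inv_cj] at this

/-- A choice of representatives for `Q(G)`. -/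
def IsRepSet (G : Type) [Group G] (A : Set (Perm G)) : Prop :=
  Set.BijOn (fun β => cj β (lam G)) A (QQ G)

/-- Conj-closed sets of permutations. -/
def ConjClosed (G : Type) [Group G] (A : Set (Perm G)) : Prop :=
  ∀ α ∈ A, ∀ β ∈ A, ∃ γ ∈ A, cj (α * β) (lam G) = cj γ (lam G)

/-- The abstract criterion. -/
theorem criterion [Finite G] (b : Perm G) (hM : cj b (lam G) ∈ QQ G)
    (N : Subgroup (Perm G)) (hN : N ∈ SS G ∩ RR G)
    (hNM : ¬ N ≤ Subgroup.normalizer (cj b⁻¹ (lam G) : Set (Perm G))) :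
    QQ G ⊂ SS G ∩ RR G ∧ ∀ A : Set (Perm G), IsRepSet G A → ¬ ConjClosed G A := by
  have hMt : cj b⁻¹ (lam G) ∉ QQ G := fun h => hNM (h.2 N hN)
  refine ⟨⟨fun M h => h.1, fun h => hMt (h (SR_inv hM.1))⟩, ?_⟩
  intro A hA hC
  obtain ⟨β, hβ, hβM⟩ := hA.surjOn hM
  simp only at hβM
  have hmap : Set.MapsTo (fun N => cj β N) (QQ G) (QQ G) := by
    intro N hN
    obtain ⟨α, hα, rfl⟩ := hA.surjOn hN
    obtain ⟨γ, hγ, h⟩ := hC β hβ α hα
    simp only
    rw [← cj_mul, h]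
    exact hA.mapsTo hγ
  have hinj : Set.InjOn (fun N => cj β N) (QQ G) := by
    intro N _ N' _ h
    have := congrArg (cj β⁻¹) h
    simpa only [cj_inv_cj] using this
  have hfin : (QQ G).Finite := Set.toFinite _
  have himg : (fun N => cj β N) '' QQ G = QQ G :=
    Set.eq_of_subset_of_ncard_le hmap.image_subset (by rw [hinj.ncard_image]) hfin
  obtain ⟨L, hL, hL2⟩ : lam G ∈ (fun N => cj β N) '' QQ G := by rw [himg]; exact lam_mem_Q
  simp only at hL2
  have hLe : L = cj β⁻¹ (lam G) := by rw [← hL2, cj_inv_cj]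
  -- h := b⁻¹ β normalizes
  have hh : cj (b⁻¹ * β) (lam G) = lam G := by rw [cj_mul, hβM, cj_inv_cj]
  have h1 := Q_cj hh hL
  rw [hLe, ← cj_mul] at h1
  have e : b⁻¹ * β * β⁻¹ = b⁻¹ := by group
  rw [e] at h1
  exact hMt h1

end Pool.Agent.T2H68.QH
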