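import Pool.Agent.T2H68.QH.Gam

/-!
# The group of order 32
-/

set_option autoImplicit false

namespace Pool.Agent.T2H68.QH

open Equiv

/-- The group of order `32` with elements `u ^ i * a ^ j * z ^ k`, where `u ^ 4 = a ^ 2 = z ^ 4 = 1`,
`u` is central and `z * a = a * z * u ^ 2`. -/
@[ext] structure Gp : Type where
  i : ZMod 4
  j : ZMod 2
  k : ZMod 4
deriving DecidableEq, Fintype

namespace Gp

/-- `2 k j` -/
def tw (k : ZMod 4) (j : ZMod 2) : ZMod 4 := if j = 0 then 0 else 2 * k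

theorem tw_add_left : ∀ k k' j, tw (k + k') j = tw k j + tw k' j := by decide
theorem tw_add_right : ∀ k j j', tw k (j + j') = tw k j + tw k j' := by decide
theorem tw_neg : ∀ k j, tw (-k) j = tw k j := by decide
theorem tw_zero : ∀ k, tw k 0 = 0 := by decide
theorem zero_tw : ∀ j, tw 0 j = 0 := by decide

instance : Mul Gp := ⟨fun x y => ⟨x.i + y.i + tw x.k y.j, x.j + y.j, x.k + y.k⟩⟩
instance : One Gp := ⟨⟨0, 0, 0⟩⟩
instance : Inv Gp := ⟨fun x => ⟨-x.i + tw x.k x.j, x.j, -x.k⟩⟩

@[simp] theorem mul_i (x y : Gp) : (x * y).i = x.i + y.i + tw x.k y.j := rfl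
@[simp] theorem mul_j (x y : Gp) : (x * y).j = x.j + y.j := rfl
@[simp] theorem mul_k (x y : Gp) : (x * y).k = x.k + y.k := rfl
@[simp] theorem one_i : (1 : Gp).i = 0 := rfl
@[simp] theorem one_j : (1 : Gp).j = 0 := rfl
@[simp] theorem one_k : (1 : Gp).k = 0 := rfl
@[simp] theorem inv_i (x : Gp) : (x⁻¹).i = -x.i + tw x.k x.j := rfl
@[simp] theorem inv_j (x : Gp) : (x⁻¹).j = x.j := rfl
@[simp] theorem inv_k (x : Gp) : (x⁻¹).k = -x.k := rfl

theorem jj : ∀ j : ZMod 2, j + j = 0 := by decide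

instance : Group Gp :=
  Group.ofLeftAxioms
    (by
      intro x y z
      ext
      · simp only [mul_i, mul_j, mul_k, tw_add_left, tw_add_right]; ring
      · simp only [mul_j]; ring
      · simp only [mul_k]; ring)
    (by
      intro x
      ext
      · simp [zero_tw]
      · simp
      · simp)
    (by
      intro x
      ext
      · simp only [mul_i, inv_i, inv_k, tw_neg, one_i]
        have : ∀ t : ZMod 4, ∀ k j, -t + tw k j + t + tw k j = 0 := by decide
        exact this _ _ _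
      · simp only [mul_j, inv_j, one_j, jj]
      · simp)

/-- the generator `u` -/
def u : Gp := ⟨1, 0, 0⟩
/-- the generator `a` -/
def a : Gp := ⟨0, 1, 0⟩
/-- the generator `z` -/
def z : Gp := ⟨0, 0, 1⟩
/-- `u ^ 2` -/
def w1 : Gp := ⟨2, 0, 0⟩
/-- `z ^ 2` -/
def w2 : Gp := ⟨0, 0, 2⟩

/-- reduction modulo two -/
def r (x : ZMod 4) : ZMod 2 := if x = 0 ∨ x = 2 then 0 else 1

theorem r_add : ∀ x y, r (x + y) = r x + r y := by decide
theorem r_tw : ∀ k j, r (tw k j) = 0 := by decide

def p1 (x : Gp) : ZMod 2 := r x.i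
def p2 (x : Gp) : ZMod 2 := x.j
def p3 (x : Gp) : ZMod 2 := r x.k

theorem p1_mul (x y : Gp) : p1 (x * y) = p1 x + p1 y := by
  simp only [p1, mul_i, r_add, r_tw, add_zero]
theorem p2_mul (x y : Gp) : p2 (x * y) = p2 x + p2 y := rfl
theorem p3_mul (x y : Gp) : p3 (x * y) = p3 x + p3 y := by
  simp only [p3, mul_k, r_add]

theorem comm_or : ∀ x y : Gp, x * y = y * x ∨ x * y = w1 * (y * x) := by decide +kernel

theorem pow4 : ∀ x : Gp, x * x * (x * x) = 1 := by decide +kernel

theorem cen_u : ∀ x : Gp, x * x = w1 → x * a = a * x → x * z = z * x →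
    p1 x = 1 ∧ p2 x = 0 ∧ p3 x = 0 := by decide +kernel

theorem non_cen : ∀ x y : Gp, x * x = 1 → x * y ≠ y * x →
    p1 x = 0 ∧ p2 x = 1 ∧ p3 x = 0 ∧ p3 y = 1 := by decide +kernel

theorem sq_t : ∀ x : Gp, p1 x = 1 → p3 x = 0 → x * x = w1 := by decide +kernel

theorem sq_mem : ∀ x : Gp, x * x = 1 ∨ x * x = w1 ∨ x * x = w2 ∨ x * x = w1 * w2 := by
  decide +kernel

theorem sq_z : ∀ x : Gp, p3 x = 1 → x * x = w2 ∨ x * x = w1 * w2 := by decide +kernel

theorem mem_phi : ∀ x : Gp, p1 x = 0 → p2 x = 0 → p3 x = 0 →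
    x = 1 ∨ x = w1 ∨ x = w2 ∨ x = w1 * w2 := by decide +kernel

theorem normal_form : ∀ x : Gp, x = u ^ x.i.val * a ^ x.j.val * z ^ x.k.val := by
  decide +kernel

/-- A homomorphism to `ZMod 2` is determined by its values on the generators. -/
theorem hom_eq (φ : Gp → ZMod 2) (h : ∀ x y, φ (x * y) = φ x + φ y) (x : Gp) :
    φ x = p1 x * φ u + p2 x * φ a + p3 x * φ z := by
  have h1 : φ 1 = 0 := by
    have := h 1 1
    rw [mul_one] at this
    exact (add_eq_left.1 this.symm)
  let S : Submonoid Gp :=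
    { carrier := {x | φ x = p1 x * φ u + p2 x * φ a + p3 x * φ z}
      mul_mem' := by
        intro x y hx hy
        simp only [Set.mem_ofPred_eq] at hx hy ⊢
        rw [h, hx, hy, p1_mul, p2_mul, p3_mul]
        ring
      one_mem' := by
        have e1 : p1 1 = 0 := by decide
        have e2 : p2 1 = 0 := by decide
        have e3 : p3 1 = 0 := by decide
        simp only [Set.mem_ofPred_eq, h1, e1, e2, e3]
        ring }
  have hu : u ∈ S := by
    have e1 : p1 u = 1 := by decide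
    have e2 : p2 u = 0 := by decide
    have e3 : p3 u = 0 := by decide
    change φ u = p1 u * φ u + p2 u * φ a + p3 u * φ z
    rw [e1, e2, e3]; ring
  have ha : a ∈ S := by
    have e1 : p1 a = 0 := by decide
    have e2 : p2 a = 1 := by decide
    have e3 : p3 a = 0 := by decide
    change φ a = p1 a * φ u + p2 a * φ a + p3 a * φ z
    rw [e1, e2, e3]; ring
  have hz : z ∈ S := by
    have e1 : p1 z = 0 := by decide
    have e2 : p2 z = 0 := by decide
    have e3 : p3 z = 1 := by decide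
    change φ z = p1 z * φ u + p2 z * φ a + p3 z * φ z
    rw [e1, e2, e3]; ring
  have hx : x ∈ S := by
    rw [normal_form x]
    exact S.mul_mem (S.mul_mem (S.pow_mem hu _) (S.pow_mem ha _)) (S.pow_mem hz _)
  exact hx

section aut

variable (α : Gp → Gp) (hm : ∀ x y, α (x * y) = α x * α y) (hb : Function.Bijective α)

include hm

theorem aut_one : α 1 = 1 := by
  have := hm 1 1
  rw [mul_one] at this
  exact (mul_eq_left.1 this.symm)

include hb

theorem aut_w1 : α w1 = w1 := by
  have h1 : z * a = w1 * (a * z) := by decide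
  have h2 : α z * α a = α w1 * (α a * α z) := by rw [← hm, h1, hm, hm]
  rcases comm_or (α z) (α a) with h | h
  · rw [h] at h2
    have h3 : α w1 = 1 := (mul_eq_right.1 h2.symm)
    have h4 : w1 = 1 := hb.1 (h3.trans (aut_one α hm).symm)
    exact absurd h4 (by decide)
  · rw [h] at h2
    exact (mul_right_cancel h2).symm

theorem aut_u : p1 (α u) = 1 ∧ p2 (α u) = 0 ∧ p3 (α u) = 0 := by
  have hc : ∀ y, α u * y = y * α u := by
    intro y
    obtain ⟨x, rfl⟩ := hb.2 y
    have : ∀ x : Gp, u * x = x * u := by decide +kernel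
    rw [← hm, this, hm]
  refine cen_u _ ?_ (hc a) (hc z)
  rw [← hm]
  have : u * u = w1 := by decide
  rw [this, aut_w1 α hm hb]

theorem aut_az : (p1 (α a) = 0 ∧ p2 (α a) = 1 ∧ p3 (α a) = 0) ∧ p3 (α z) = 1 := by
  have h1 : α a * α a = 1 := by
    rw [← hm]
    have : a * a = 1 := by decide
    rw [this, aut_one α hm]
  have h2 : α a * α z ≠ α z * α a := by
    intro h
    rw [← hm, ← hm] at h
    exact absurd (hb.1 h) (by decide)
  have := non_cen _ _ h1 h2
  exact ⟨⟨this.1, this.2.1, this.2.2.1⟩, this.2.2.2⟩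

theorem aut_p1 (x : Gp) : p1 (α x) = p1 x + p3 x * p1 (α z) := by
  have := hom_eq (fun x => p1 (α x)) (fun x y => by simp only [hm, p1_mul]) x
  rw [this, (aut_u α hm hb).1, (aut_az α hm hb).1.1]; ring

theorem aut_p2 (x : Gp) : p2 (α x) = p2 x + p3 x * p2 (α z) := by
  have := hom_eq (fun x => p2 (α x)) (fun x y => by simp only [hm, p2_mul]) x
  rw [this, (aut_u α hm hb).2.1, (aut_az α hm hb).1.2.1]; ring

theorem aut_p3 (x : Gp) : p3 (α x) = p3 x := by
  have := hom_eq (fun x => p3 (α x)) (fun x y => by simp only [hm, p3_mul]) x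
  rw [this, (aut_u α hm hb).2.2, (aut_az α hm hb).1.2.2, (aut_az α hm hb).2]; ring

theorem aut_w2 : α w2 = w2 ∨ α w2 = w1 * w2 := by
  have h : z * z = w2 := by decide
  rw [← h, hm]
  exact sq_z _ (aut_az α hm hb).2

end aut

end Gp

end Pool.Agent.T2H68.QH
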