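import Pool.Agent.T2H68.QH.Claim

/-!
# The counterexample
-/

set_option autoImplicit false

namespace Pool.Agent.T2H68.QH

open Equiv Gp

/-- `0 ↦ 0`, `1 ↦ 2` -/
def li (b : ZMod 2) : ZMod 4 := if b = 0 then 0 else 2
/-- `0 ↦ 0`, `1 ↦ 1` -/
def l1 (b : ZMod 2) : ZMod 4 := if b = 0 then 0 else 1

/-- `w1 ^ b * w2 ^ b'` -/
def ww (b b' : ZMod 2) : Gp := ⟨li b, 0, li b'⟩

/-- The bilinear map of the group `M`. -/
def cc (x y : Gp) : Gp :=
  ww (p2 x * p2 y + p3 x * p1 y + p3 x * p2 y) (p2 x * p3 y + p3 x * p2 y)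

theorem ww_mul : ∀ b b' c c', ww (b + c) (b' + c') = ww b b' * ww c c' := by decide

theorem ww_comm : ∀ b b' x, ww b b' * x = x * ww b b' := by decide +kernel

theorem cc_comm (x y v : Gp) : cc x y * v = v * cc x y := ww_comm _ _ _

theorem cc_mul (x v w : Gp) : cc x (v * w) = cc x v * cc x w := by
  unfold cc
  rw [← ww_mul, p1_mul, p2_mul, p3_mul]
  congr 1 <;> ring

theorem p_ww : ∀ b b', p1 (ww b b') = 0 ∧ p2 (ww b b') = 0 ∧ p3 (ww b b') = 0 := by decide

theorem cc_congr {x y : Gp} (_h1 : p1 x = p1 y) (h2 : p2 x = p2 y) (h3 : p3 x = p3 y) (v : Gp) :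
    cc x v = cc y v := by
  unfold cc; rw [h2, h3]

/-- The bijection `β`, an isomorphism of `G` with the group `(G, ∘)`,
`x ∘ y = x * y * cc x y`. -/
def b0 : Perm Gp where
  toFun x := ⟨(if x.i = 2 ∨ x.i = 3 then 2 else 0) + l1 x.j +
      (if r x.i = 1 ∧ x.j = 1 then 2 else 0), r x.i + x.j,
      x.k + (if r x.i + x.j = 1 then 2 * x.k else 0)⟩
  invFun x := ⟨x.i - l1 (r x.i) - (if x.j + r x.i = 1 ∧ r x.i = 1 then 2 else 0) +
      l1 (x.j + r x.i), r x.i, x.k + (if x.j = 1 then 2 * x.k else 0)⟩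
  left_inv := by
    unfold Function.LeftInverse
    decide +kernel
  right_inv := by
    unfold Function.RightInverse Function.LeftInverse
    decide +kernel

theorem b0_mul : ∀ g h : Gp, b0 (g * h) = b0 g * (b0 h * cc (b0 g) (b0 h)) := by
  decide +kernel

/-- The automorphism `z ↦ z * a`. -/
def th (x : Gp) : Gp := ⟨x.i + x.k * (x.k + 1), x.j + r x.k, x.k⟩

/-- The gamma function of the second group. -/
def g1 (x v : Gp) : Gp := if p3 x = 0 then v else th v

/-- The bijection for the second group. -/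
def b1 : Perm Gp where
  toFun x := ⟨x.i, x.j + (if x.k = 2 ∨ x.k = 3 then 1 else 0), x.k⟩
  invFun x := ⟨x.i, x.j + (if x.k = 2 ∨ x.k = 3 then 1 else 0), x.k⟩
  left_inv := by
    unfold Function.LeftInverse
    decide +kernel
  right_inv := by
    unfold Function.RightInverse Function.LeftInverse
    decide +kernel

theorem b1_mul : ∀ g h : Gp, b1 (g * h) = b1 g * g1 (b1 g) (b1 h) := by
  decide +kernel

theorem th_mul : ∀ v w : Gp, th (v * w) = th v * th w := by decide +kernel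

theorem p3_th (v : Gp) : p3 (th v) = p3 v := rfl

theorem ep1 : ∀ y : Gp, p1 y⁻¹ = p1 y := by decide +kernel
theorem ep2 : ∀ y : Gp, p2 y⁻¹ = p2 y := by decide +kernel
theorem ep3 : ∀ y : Gp, p3 y⁻¹ = p3 y := by decide +kernel
theorem e2 : ∀ s t : ZMod 2, s + t + s = t := by decide

theorem p_cc (x y : Gp) : p1 (cc x y) = 0 ∧ p2 (cc x y) = 0 ∧ p3 (cc x y) = 0 := p_ww _ _

theorem cc_cj (y x v : Gp) (C : Gp) (hC : ∃ b b', C = ww b b') :
    cc (y * x * y⁻¹ * C) v = cc x v := by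
  obtain ⟨b, b', rfl⟩ := hC
  apply cc_congr
  · rw [p1_mul, p1_mul, p1_mul, ep1, (p_ww _ _).1, add_zero, e2]
  · rw [p2_mul, p2_mul, p2_mul, ep2, (p_ww _ _).2.1, add_zero, e2]
  · rw [p3_mul, p3_mul, p3_mul, ep3, (p_ww _ _).2.2, add_zero, e2]

theorem cc_sq (x y : Gp) : cc x y * cc x y = 1 := by
  have : ∀ b b', ww b b' * ww b b' = 1 := by decide
  exact this _ _

/-- conjugation of left multiplications of `(G, ∘)` by a translation -/
theorem conj_lt (y x w : Gp) (C2 : Gp) :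
    y * (x * (w * C2)) = (y * x * y⁻¹ * cc x y) * ((y * w) * (C2 * cc x y)) := by
  have hsq := cc_sq x y
  have hcm : ∀ v, cc x y * v = v * cc x y := fun v => cc_comm _ _ _
  generalize cc x y = C1 at hsq hcm ⊢
  calc y * (x * (w * C2)) = y * x * y⁻¹ * (y * w) * C2 := by group
    _ = y * x * y⁻¹ * (C1 * C1) * (y * w) * C2 := by rw [hsq]; group
    _ = y * x * y⁻¹ * C1 * (C1 * (y * w)) * C2 := by group
    _ = y * x * y⁻¹ * C1 * ((y * w) * C1) * C2 := by rw [hcm]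
    _ = y * x * y⁻¹ * C1 * (y * w) * (C1 * C2) := by group
    _ = y * x * y⁻¹ * C1 * (y * w) * (C2 * C1) := by rw [hcm]
    _ = _ := by group

/-- automorphisms which map `z` into `z ⟨a⟩ Φ(G)` respect the operation `∘` -/
theorem aut_cc (α : Gp → Gp) (hm : ∀ x y, α (x * y) = α x * α y) (hb : Function.Bijective α)
    (hz : p1 (α z) = 0) (v w : Gp) : α (cc v w) = cc (α v) (α w) := by
  have hw1 := aut_w1 _ hm hb
  have hww : ∀ b b', α (ww b b') = ww (b + b' * p2 (α z)) b' := by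
    have hw2 : α w2 = ww (p2 (α z)) 1 := by
      have h : z * z = w2 := by decide
      rw [← h, hm]
      have : ∀ t : Gp, p1 t = 0 → p3 t = 1 → t * t = ww (p2 t) 1 := by decide +kernel
      exact this _ hz (aut_az _ hm hb).2
    have h01 : ∀ b : ZMod 2, b = 0 ∨ b = 1 := by decide
    intro b b'
    rcases h01 b with rfl | rfl <;> rcases h01 b' with rfl | rfl
    · have e : ww 0 0 = 1 := by decide
      rw [zero_mul, add_zero, e, aut_one _ hm]
    · have e : ww 0 1 = w2 := by decide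
      rw [e, hw2, zero_add, one_mul]
    · have e : ww 1 0 = w1 := by decide
      rw [zero_mul, add_zero, e, hw1]
    · have e : ww 1 1 = w1 * w2 := by decide
      rw [e, hm, hw1, hw2, one_mul]
      have : ∀ t : ZMod 2, w1 * ww t 1 = ww (1 + t) 1 := by decide
      exact this _
  unfold cc
  rw [hww, aut_p1 α hm hb w, aut_p2 α hm hb v, aut_p2 α hm hb w, aut_p3 α hm hb v,
    aut_p3 α hm hb w, hz]
  generalize p1 w = w1', p2 w = w2', p3 w = w3', p2 v = v2', p3 v = v3', p2 (α z) = f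
  revert w1' w2' w3' v2' v3' f
  decide

theorem M_mem : cj b0 (lam Gp) ∈ SS Gp ∩ RR Gp := by
  refine SR_of b0 (fun x v => v * cc x v) b0_mul ?_ ?_
  · intro x v w
    have h : w * (cc x v * cc x w) = cc x v * (w * cc x w) := by
      rw [← mul_assoc, ← cc_comm x v w, mul_assoc]
    rw [cc_mul, mul_assoc, mul_assoc, h]
  · intro x h v
    have e : ∀ s t : ZMod 2, s + t + s = t := by decide
    congr 1
    apply cc_congr
    · rw [p1_mul, p1_mul, ep1, p1_mul, (p_cc _ _).1, add_zero, e]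
    · rw [p2_mul, p2_mul, ep2, p2_mul, (p_cc _ _).2.1, add_zero, e]
    · rw [p3_mul, p3_mul, ep3, p3_mul, (p_cc _ _).2.2, add_zero, e]

theorem N_mem : cj b1 (lam Gp) ∈ SS Gp ∩ RR Gp := by
  refine SR_of b1 g1 b1_mul ?_ ?_
  · intro x v w
    unfold g1
    split
    · rfl
    · exact th_mul _ _
  · intro x h v
    have e : ∀ s t : ZMod 2, s + t + s = t := by decide
    have ep3 : ∀ y : Gp, p3 y⁻¹ = p3 y := by decide +kernel
    have h1 : p3 (g1 x h) = p3 h := by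
      unfold g1
      split
      · rfl
      · exact p3_th _
    have h2 : p3 (h * x * (g1 x h)⁻¹) = p3 x := by
      rw [p3_mul, p3_mul, ep3, h1, e]
    unfold g1 at h2 ⊢
    rw [h2]

/-- Every member of `S(G) ∩ R(G)` normalizes `M`. -/
theorem M_Q : cj b0 (lam Gp) ∈ QQ Gp := by
  refine ⟨M_mem, fun N hN => ?_⟩
  obtain ⟨d, hall, hσ, hmul, hbij, hcirc, hanti⟩ := exists_gamma hN
  have hz := gamma_z hN d hσ hmul hbij hcirc hanti
  apply le_norm
  intro n hn m hm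
  obtain ⟨x, hx⟩ := (mem_cj_lam (γ := fun x v => v * cc x v) b0_mul m).1 hm
  obtain ⟨y, hy⟩ : ∃ y, n 1 = y := ⟨_, rfl⟩
  have hnx : ∀ v, n v = y * d y v := by rw [← hy]; exact hall n hn
  have hmy := hmul y
  have hcc := aut_cc (d y) hmy (hbij y) (hz y)
  refine (mem_cj_lam (γ := fun x v => v * cc x v) b0_mul _).2
    ⟨y * d y x * y⁻¹ * cc (d y x) y, fun v => ?_⟩
  obtain ⟨w, hw⟩ : ∃ w, n w = v := ⟨n⁻¹ v, app_inv _ _⟩
  have h1 : (n * m * n⁻¹) v = n (m w) := by
    rw [Perm.mul_apply, Perm.mul_apply, ← hw, inv_app]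
  rw [h1, hx, hnx, hmy, hmy, hcc, cc_cj y (d y x) v (cc (d y x) y) ⟨_, _, rfl⟩, ← hw, hnx, cc_mul]
  rw [conj_lt y (d y x) (d y w) (cc (d y x) (d y w)), cc_comm (d y x) (d y w)]

theorem not_norm_aux {G : Type} [Group G] (b b' : Perm G) (s : G)
    (h : cj b' (lam G) ≤ Subgroup.normalizer (cj b⁻¹ (lam G) : Set (Perm G))) :
    ∃ g, ∀ v, b (b' (s * b'.symm (b.symm (s * b v)))) = g * b (b' (s * b'.symm v)) := by
  have hn : b' * lt s * b'⁻¹ ∈ cj b' (lam G) := by
    rw [mem_cj]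
    have e : b'⁻¹ * (b' * lt s * b'⁻¹) * b' = lt s := by group
    rw [e]; exact lt_mem s
  have hm : b⁻¹ * lt s * b ∈ cj b⁻¹ (lam G) := by
    rw [mem_cj]
    have e : b⁻¹⁻¹ * (b⁻¹ * lt s * b) * b⁻¹ = lt s := by group
    rw [e]; exact lt_mem s
  have h2 := (Subgroup.mem_normalizer_iff.1 (h hn) _).1 hm
  rw [mem_cj, mem_lam] at h2
  obtain ⟨g, hg⟩ := h2
  refine ⟨g, fun v => ?_⟩
  have h4 := hg (b ((b' * lt s * b'⁻¹) v))
  simp only [Perm.mul_apply, inv_inv, inv_app, lt_apply, mul_inv_rev, lt_inv_apply,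
    inv_mul_cancel_left, app_inv] at h4
  exact h4

/-- The second group does not normalize `β⁻¹ λ(G) β`. -/
theorem not_norm :
    ¬ cj b1 (lam Gp) ≤ Subgroup.normalizer (cj b0⁻¹ (lam Gp) : Set (Perm Gp)) := by
  intro h
  obtain ⟨g, h3⟩ := not_norm_aux b0 b1 z h
  have e1 := h3 1
  have e2 := h3 z
  have e3 : b0 (b1 (z * b1.symm (b0.symm (z * b0 1)))) * (b0 (b1 (z * b1.symm 1)))⁻¹ = g := by
    rw [e1, mul_inv_cancel_right]
  have e4 : b0 (b1 (z * b1.symm (b0.symm (z * b0 z)))) * (b0 (b1 (z * b1.symm z)))⁻¹ = g := by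
    rw [e2, mul_inv_cancel_right]
  have e5 := e3.trans e4.symm
  have e6 : b0 (b1 (z * b1.symm (b0.symm (z * b0 1)))) * (b0 (b1 (z * b1.symm 1)))⁻¹ ≠
      b0 (b1 (z * b1.symm (b0.symm (z * b0 z)))) * (b0 (b1 (z * b1.symm z)))⁻¹ := by
    decide +kernel
  exact e6 e5

theorem main : QQ Gp ⊂ SS Gp ∩ RR Gp ∧ ∀ A : Set (Perm Gp), IsRepSet Gp A → ¬ ConjClosed Gp A :=
  criterion b0 M_Q _ N_mem not_norm

end Pool.Agent.T2H68.QH
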